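import Pool.Agent.Helper53.SZ.Square

/-!
# Finitely many patterns for each scheme
-/

set_option autoImplicit false

open CategoryTheory AlgebraicGeometry Pool.Agent.Y116.UV Pool.Agent.Q282.UK

namespace Pool.Agent.Helper53.SZ

variable {R : Type} [CommRing R] {sep : Prop}

/-- The schemes that are decided by the schemes of the matrices with square zero with the patterns in
a finite list. -/
def Star (sep : Prop) (X : Sch R) : Prop :=
  ∃ L : List (Σ n : ℕ, Fin n → Fin n → Prop), (∀ G ∈ L, ∀ i j, G.2 i j → i < j) ∧
    ∀ P : Sch R → Prop, Clo sep P → (∀ G ∈ L, P (squareZero R G.2)) → P X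

lemma Star.map {X Y : Sch R} (h : Star sep X) (hXY : ∀ P : Sch R → Prop, Clo sep P → P X → P Y) :
    Star sep Y := by
  obtain ⟨L, hL, h⟩ := h
  exact ⟨L, hL, fun P hP hG => hXY P hP (h P hP hG)⟩

lemma Star.map₂ {X Y Z : Sch R} (hX : Star sep X) (hY : Star sep Y)
    (h : ∀ P : Sch R → Prop, Clo sep P → P X → P Y → P Z) : Star sep Z := by
  obtain ⟨L, hL, hX⟩ := hX
  obtain ⟨L', hL', hY⟩ := hY
  refine ⟨L ++ L', fun G hG => ?_, fun P hP hG => h P hP (hX P hP fun G h1 => hG G ?_)
    (hY P hP fun G h1 => hG G ?_)⟩
  · rcases List.mem_append.1 hG with hG | hG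
    · exact hL G hG
    · exact hL' G hG
  · exact List.mem_append.2 (Or.inl h1)
  · exact List.mem_append.2 (Or.inr h1)

theorem clo_star : Clo sep (Star (R := R) sep) where
  iso hX e h := h.map fun _ hP => hP.iso hX e
  total i j hX ht hZ hU := hZ.map₂ hU fun _ hP => hP.total i j hX ht
  opened i j hX ht hZ hX' := hZ.map₂ hX' fun _ hP => hP.opened i j hX ht
  torus B _ _ _ h := h.map fun _ hP => hP.torus B

lemma star_self {n : ℕ} {G : Fin n → Fin n → Prop} (hG : ∀ i j, G i j → i < j) :
    Star (R := R) sep (squareZero R G) :=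
  ⟨[⟨n, G⟩], fun G' h => by rw [List.mem_singleton.1 h]; exact hG,
    fun _ _ h => h ⟨n, G⟩ (List.mem_singleton.2 rfl)⟩

/-- **Finitely many patterns.** Let `R` be a ring such that all algebras of finite type have
presentations with coefficients `0` and `1`. For each scheme `X` of finite type over `R` there is a finite
list `L` of patterns such that every property with the closure properties `Clo` that holds for the schemes
of the strictly upper triangular matrices with square zero with the patterns in `L` holds for `X`. -/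
theorem finite_list (hR : Presents ({0, 1} : Set R)) (X : Sch R) (hX : FT sep X) :
    ∃ L : List (Σ n : ℕ, Fin n → Fin n → Prop), (∀ G ∈ L, ∀ i j, G.2 i j → i < j) ∧
      ∀ P : Sch R → Prop, Clo sep P → (∀ G ∈ L, P (squareZero R G.2)) → P X := by
  have h : ∀ X : Sch R, FT sep X → Star sep X :=
    ((square_tfae (sep := sep) (P := Star sep) clo_star hR).out 2 0).1 fun _ _ hG => star_self hG
  exact h X hX

end Pool.Agent.Helper53.SZ
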