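import Pool.Agent.Helper53.SZ.WDefs
import Pool.Agent.Helper53.SZ.Lst
import Pool.Graph.R_pool_sql_team_seeded_2aa45f1a.Q193.LT.Sums

/-!
# Cohomology with compact supports in one weight
-/

set_option autoImplicit false

open CategoryTheory CategoryTheory.Limits AlgebraicGeometry Pool.Agent.Y116.UV Pool.Agent.Q193.LT
  Pool.Agent.Q282.UK
open scoped ZeroObject

universe v u

namespace Pool.Agent.Helper53.SZ

attribute [local instance] Abelian.hasFiniteBiproducts

variable {R : Type} [CommRing R] {A : Type u} [Category.{v} A] [Abelian A]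

/-- Closure properties of the schemes all of whose objects are in the Serre class `S`. -/
theorem clo_pieces {H : ℤ → Sch R → A} (hH : IsPieces H) {S : A → Prop} (hS : IsSerre S) :
    Clo True fun X : Sch R => ∀ n, S (H n X) where
  iso hX e h n := by
    obtain ⟨e'⟩ := hH.iso hX e n
    exact hS.iso e' (h n)
  total i j hX ht hZ hU n := by
    obtain ⟨a, b, d, hab, hbd, hda, e1, e2, e3⟩ := hH.exact i j hX ht
    exact hS.mid _ _ _ (e1 n) (hU n) (hZ n)
  opened i j hX ht hZ hX' n := by
    obtain ⟨a, b, d, hab, hbd, hda, e1, e2, e3⟩ := hH.exact i j hX ht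
    have h := hS.mid _ _ _ (e3 (n - 1)) (hZ (n - 1)) (hX' (n - 1 + 1))
    rwa [sub_add_cancel] at h
  torus B _ _ _ h n := by
    obtain ⟨i, r, hir⟩ := hH.torus B n
    have : Mono i := mono_of_mono_fac hir
    exact hS.of_mono i (h (n + 1))

/-- the zero theory without twists -/
noncomputable def triv (R : Type) [CommRing R] (A : Type u) [Category.{v} A] [Abelian A] :
    CompactData R A where
  H _ _ := 0
  tw _ := 𝟭 A

lemma triv_compact : IsCompact (triv R A) where
  twAdditive _ := inferInstanceAs (𝟭 A).Additive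
  twZero := ⟨Iso.refl _⟩
  twAdd _ _ := ⟨Functor.leftUnitor _⟩
  iso _ _ _ := ⟨Iso.refl _⟩
  exact _ _ _ _ := by
    refine ⟨fun _ => 0, fun _ => 0, fun _ => 0, fun _ => comp_zero, fun _ => comp_zero,
      fun _ => comp_zero, fun _ => ?_, fun _ => ?_, fun _ => ?_⟩ <;>
    exact ShortComplex.exact_of_isZero_X₂ _ (isZero_zero A)
  bundle B _ _ _ m _ _ _ _ _ n := ⟨Iso.refl _⟩
  torus B _ _ _ n := by
    refine ⟨(isZero_zero A).iso ?_⟩
    change IsZero ((0 : A) ⊞ (0 : A))
    rw [IsZero.iff_id_eq_zero]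
    apply biprod.hom_ext
    · exact (isZero_zero A).eq_of_tgt _ _
    · exact (isZero_zero A).eq_of_tgt _ _

variable {G : A → Prop}

lemma factor_iff (N : A) : Factor G N ↔ FactorOfSum (triv ℤ A) G N := by
  constructor
  · rintro ⟨J, _, M, i, r, h1, h2⟩
    exact ⟨J, inferInstance, M, fun _ => 0, i, r, h1, h2⟩
  · rintro ⟨J, _, M, _, i, r, h1, h2⟩
    exact ⟨J, inferInstance, M, i, r, h1, h2⟩

/-- In a semisimple abelian category the direct factors of the finite direct sums of the objects with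
the property `G` form a Serre class. -/
theorem factor_serre (hss : ∀ {X Y : A} (f : X ⟶ Y), Mono f → ∃ r : Y ⟶ X, f ≫ r = 𝟙 X) :
    IsSerre (Factor G) := by
  have h := (gen_serre (G := G) (triv_compact (R := ℤ) (A := A)) hss).toIsSerre
  have h1 : Factor G = FactorOfSum (triv ℤ A) G := funext fun N => propext (factor_iff N)
  rw [h1]
  exact h

lemma Factor.self {M : A} (h : G M) : Factor G M :=
  ⟨Unit, inferInstance, fun _ => M, fun _ => 𝟙 M, fun _ => 𝟙 M, fun _ => h, by simp⟩

lemma sums_of_factor (hss : ∀ {X Y : A} (f : X ⟶ Y), Mono f → ∃ r : Y ⟶ X, f ≫ r = 𝟙 X)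
    {G' P : A → Prop} (hP : Inherited P) (hG : ∀ M, G M → Factor G' M) (h : Sums G' P) :
    Sums G P := by
  have h1 : SumsHave (triv ℤ A) G' P := fun J _ M _ hM => h J M hM
  have h2 := sumsHave_of_gen (G := G) (triv_compact (R := ℤ) (A := A)) hss hP
    (fun M hM => (factor_iff M).1 (hG M hM)) h1
  exact fun J _ M hM => h2 J M (fun _ => 0) hM

lemma factor_of_sums {P : A → Prop} (hP : Inherited P) (h : Sums G P) {N : A} (hN : Factor G N) :
    P N := by
  obtain ⟨J, hJ, M, i, r, h1, h2⟩ := hN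
  refine hP (biproduct.lift i) (biproduct.desc r) ?_ (h J M h1)
  rw [biproduct.lift_desc, h2]

section

variable {k : Type} [Field k] {H : ℤ → Sch k → A}

/-- **One weight.** Smooth projective schemes and matrices with square zero. -/
theorem pieces_tfae (hk : Presents ({0, 1} : Set k)) (hH : IsPieces H) (hg : IsGenerated H)
    {S : A → Prop} (hS : IsSerre S) :
    [∀ Y : Sch k, SmoothProj Y → ∀ n, S (H n Y),
      ∀ X : Sch k, FT True X → ∀ n, S (H n X),
      ∀ (a b c : ℕ) (T : Fin a → Fin b → Prop) (U : Fin b → Fin c → Prop) (n : ℤ),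
        S (H n (productZero k T U)),
      ∀ (m : ℕ) (G : Fin m → Fin m → Prop), (∀ i j, G i j → i < j) → ∀ n,
        S (H n (squareZero k G))].TFAE := by
  have h := square_tfae (clo_pieces hH hS) hk
  have h01 := h.out 0 1
  have h12 := h.out 1 2
  tfae_have 1 → 2 := fun h1 => hg S hS h1
  tfae_have 2 → 1 := fun h1 Y hY => h1 Y hY.ft
  tfae_have 2 ↔ 3 := h01
  tfae_have 3 ↔ 4 := h12
  tfae_finish

/-- **One scheme.** The objects `H n X` are direct factors of finite direct sums of the objects of the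
matrices with square zero with the patterns in a finite list, which depends only on `X`. -/
theorem factor_list (hk : Presents ({0, 1} : Set k)) (X : Sch k) (hX : FT True X) :
    ∃ L : List (Σ m : ℕ, Fin m → Fin m → Prop), (∀ G ∈ L, ∀ i j, G.2 i j → i < j) ∧
      ∀ {A : Type u} [Category.{v} A] [Abelian A]
        (_ : ∀ {X Y : A} (f : X ⟶ Y), Mono f → ∃ r : Y ⟶ X, f ≫ r = 𝟙 X)
        {H : ℤ → Sch k → A}, IsPieces H → ∀ n, Factor (OfPatterns H L) (H n X) := by
  obtain ⟨L, hL, h⟩ := finite_list (sep := True) hk X hX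
  refine ⟨L, hL, fun {A} _ _ hss {H} hH => ?_⟩
  exact h (fun X => ∀ n, Factor (OfPatterns H L) (H n X)) (clo_pieces hH (factor_serre hss))
    fun G hG n => Factor.self ⟨G, hG, n, rfl⟩

/-- **Finite direct sums.** -/
theorem sums_tfae (hk : Presents ({0, 1} : Set k)) (hH : IsPieces H) (hg : IsGenerated H)
    (hss : ∀ {X Y : A} (f : X ⟶ Y), Mono f → ∃ r : Y ⟶ X, f ≫ r = 𝟙 X) {P : A → Prop}
    (hP : Inherited P) : [Sums (OfProj H) P, Sums (OfProduct H) P, Sums (OfSquare H) P].TFAE := by
  have key : ∀ G : A → Prop, IsSerre (Factor G) := fun G => factor_serre hss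
  tfae_have 1 → 3 := sums_of_factor hss hP fun M hM => by
    obtain ⟨m, G, n, -, rfl⟩ := hM
    exact hg _ (key (OfProj H)) (fun Y hY n => Factor.self ⟨Y, n, hY, rfl⟩) _ (ft_square G) n
  tfae_have 3 → 2 := sums_of_factor hss hP fun M hM => by
    obtain ⟨a, b, c, T, U, n, rfl⟩ := hM
    have h := (pieces_tfae hk hH hg (key (OfSquare H))).out 3 2
    exact h.1 (fun m G hG n => Factor.self ⟨m, G, n, hG, rfl⟩) a b c T U n
  tfae_have 2 → 1 := sums_of_factor hss hP fun M hM => by
    obtain ⟨Y, n, hY, rfl⟩ := hM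
    have h := (pieces_tfae hk hH hg (key (OfProduct H))).out 2 0
    exact h.1 (fun a b c T U n => Factor.self ⟨a, b, c, T, U, n, rfl⟩) Y hY n
  tfae_finish

end

end Pool.Agent.Helper53.SZ
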