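import Pool.Agent.Helper53.SZ.Defs
import Pool.Graph.R_pool_sql_team_seeded_2aa45f1a.Q193.LT.Defs

/-!
# Cohomology with compact supports in one weight: definitions
-/

set_option autoImplicit false

open CategoryTheory CategoryTheory.Limits AlgebraicGeometry Pool.Agent.Y116.UV Pool.Agent.Q193.LT

universe v u

namespace Pool.Agent.Helper53.SZ

section

variable {R : Type} [CommRing R] {A : Type u} [Category.{v} A] [Abelian A]

/-- The standard properties of the graded objects `H n X = Gr^W_w H^n_c(X)` of the cohomology with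
compact supports of the separated schemes of finite type over `R`, with values in the abelian category
`A`, for one fixed weight `w` (there are no Tate twists and no other weights).

* `exact`: the long exact sequence `⋯ → H n U → H n X → H n Z → H (n + 1) U → ⋯` for a closed
  subscheme `Z` of `X` with the complement `U`;
* `torus`: `H n X` is a direct summand of `H (n + 1) (X × 𝔾_m)` for affine `X` (in fact
  `Gr^W_w H^{n+1}_c(X × 𝔾_m)` is the direct sum of `Gr^W_w H^n_c(X)` and of
  `(Gr^W_{w-2} H^{n-1}_c(X))(-1)`). -/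
structure IsPieces (H : ℤ → Sch R → A) : Prop where
  iso : ∀ {X Y : Sch R}, FT True X → Nonempty (X ≅ Y) → ∀ n, Nonempty (H n X ≅ H n Y)
  exact : ∀ {Z X U : Sch R} (i : Z ⟶ X) (j : U ⟶ X), FT True X → IsTriple i j →
    ∃ (a : ∀ n, H n U ⟶ H n X) (b : ∀ n, H n X ⟶ H n Z)
      (d : ∀ n, H n Z ⟶ H (n + 1) U) (hab : ∀ n, a n ≫ b n = 0)
      (hbd : ∀ n, b n ≫ d n = 0) (hda : ∀ n, d n ≫ a (n + 1) = 0),
      (∀ n, (ShortComplex.mk (a n) (b n) (hab n)).Exact) ∧
      (∀ n, (ShortComplex.mk (b n) (d n) (hbd n)).Exact) ∧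
      (∀ n, (ShortComplex.mk (d n) (a (n + 1)) (hda n)).Exact)
  torus : ∀ (B : Type) [CommRing B] [Algebra R B] [Algebra.FiniteType R B], ∀ n,
    ∃ (i : H n (aff R B) ⟶ H (n + 1) (aff R (LaurentPolynomial B)))
      (r : H (n + 1) (aff R (LaurentPolynomial B)) ⟶ H n (aff R B)), i ≫ r = 𝟙 _

/-- `N` is a direct factor of a finite direct sum of objects with the property `G`. -/
def Factor (G : A → Prop) (N : A) : Prop :=
  ∃ (J : Type) (_ : Fintype J) (M : J → A) (i : ∀ j, N ⟶ M j) (r : ∀ j, M j ⟶ N),
    (∀ j, G (M j)) ∧ ∑ j, i j ≫ r j = 𝟙 N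

end

section

attribute [local instance] Abelian.hasFiniteBiproducts

variable {A : Type u} [Category.{v} A] [Abelian A]

/-- The property `P` is true for all finite direct sums of objects with the property `G`. -/
def Sums (G P : A → Prop) : Prop :=
  ∀ (J : Type) [Finite J] (M : J → A), (∀ j, G (M j)) → P (⨁ M)

/-- The property `P` is inherited by direct factors. -/
def Inherited (P : A → Prop) : Prop :=
  ∀ {X Y : A} (i : X ⟶ Y) (r : Y ⟶ X), i ≫ r = 𝟙 X → P Y → P X

end

section

variable {k : Type} [Field k] {A : Type u} [Category.{v} A]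

/-- Smooth projective schemes generate: a Serre class that contains all `H n Y` for smooth projective `Y`
contains all `H n X` for the separated schemes `X` of finite type. (The graded object `Gr^W_w H^n_c(X)` is
a subquotient of a sum of `H^w(Y)` for smooth projective `Y`.) -/
def IsGenerated [Abelian A] (H : ℤ → Sch k → A) : Prop :=
  ∀ S : A → Prop, IsSerre S → (∀ Y : Sch k, SmoothProj Y → ∀ n, S (H n Y)) →
    ∀ X : Sch k, FT True X → ∀ n, S (H n X)

/-- The objects `H n Y` for smooth projective `Y`. -/
def OfProj (H : ℤ → Sch k → A) (N : A) : Prop :=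
  ∃ (Y : Sch k) (n : ℤ), SmoothProj Y ∧ N = H n Y

/-- The objects `H n Y` for the schemes `Y` of the pairs of matrices with product zero and with
prescribed zeros. -/
def OfProduct (H : ℤ → Sch k → A) (N : A) : Prop :=
  ∃ (a b c : ℕ) (S : Fin a → Fin b → Prop) (T : Fin b → Fin c → Prop) (n : ℤ),
    N = H n (productZero k S T)

/-- The objects `H n Y` for the schemes `Y` of the strictly upper triangular matrices with square zero
and with prescribed zeros. -/
def OfSquare (H : ℤ → Sch k → A) (N : A) : Prop :=
  ∃ (m : ℕ) (G : Fin m → Fin m → Prop) (n : ℤ), (∀ i j, G i j → i < j) ∧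
    N = H n (squareZero k G)

/-- The same for the patterns in a finite list. -/
def OfPatterns (H : ℤ → Sch k → A) (L : List (Σ m : ℕ, Fin m → Fin m → Prop)) (N : A) : Prop :=
  ∃ G ∈ L, ∃ n : ℤ, N = H n (squareZero k G.2)

end

end Pool.Agent.Helper53.SZ
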