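import Pool.Graph.R_seed8.Y116.UV.Defs

/-!
# Matrices with square zero and prescribed zeros: definitions
-/

set_option autoImplicit false

open CategoryTheory AlgebraicGeometry Pool.Agent.Y116.UV MvPolynomial

namespace Pool.Agent.Helper53.SZ

/-- The ideal of the matrices `N` of size `n × n` with `N² = 0` and `N i j = 0` for all `i`, `j` that are
not related by `G`, in the polynomial ring of all the entries `X (i, j)`. -/
noncomputable def squareIdeal (R : Type) [CommRing R] {n : ℕ} (G : Fin n → Fin n → Prop) :
    Ideal (MvPolynomial (Fin n × Fin n) R) :=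
  Ideal.span ({f | ∃ i k, f = ∑ j, X (i, j) * X (j, k)} ∪ {f | ∃ i j, ¬ G i j ∧ f = X (i, j)})

/-- The scheme of the matrices `N` of size `n × n` with `N² = 0` and `N i j = 0` for all `i`, `j` that
are not related by `G`. -/
noncomputable def squareZero (R : Type) [CommRing R] {n : ℕ} (G : Fin n → Fin n → Prop) : Sch R :=
  aff R (MvPolynomial (Fin n × Fin n) R ⧸ squareIdeal R G)

/-- The ideal of the pairs of matrices `A` and `B` of sizes `a × b` and `b × c` with `A B = 0` and
`A i j = 0` unless `S i j`, `B j k = 0` unless `T j k`, in the polynomial ring of all the entries. -/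
noncomputable def productIdeal (R : Type) [CommRing R] {a b c : ℕ} (S : Fin a → Fin b → Prop)
    (T : Fin b → Fin c → Prop) : Ideal (MvPolynomial ((Fin a × Fin b) ⊕ (Fin b × Fin c)) R) :=
  Ideal.span ({f | ∃ i k, f = ∑ j, X (Sum.inl (i, j)) * X (Sum.inr (j, k))} ∪
    ({f | ∃ i j, ¬ S i j ∧ f = X (Sum.inl (i, j))} ∪
      {f | ∃ j k, ¬ T j k ∧ f = X (Sum.inr (j, k))}))

/-- The scheme of the pairs of matrices `A` and `B` of sizes `a × b` and `b × c` with `A B = 0` and
`A i j = 0` unless `S i j`, `B j k = 0` unless `T j k`. -/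
noncomputable def productZero (R : Type) [CommRing R] {a b c : ℕ} (S : Fin a → Fin b → Prop)
    (T : Fin b → Fin c → Prop) : Sch R :=
  aff R (MvPolynomial ((Fin a × Fin b) ⊕ (Fin b × Fin c)) R ⧸ productIdeal R S T)

end Pool.Agent.Helper53.SZ
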