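import Pool.Agent.Helper53.SZ.Rules
import Pool.Agent.Helper53.SZ.Defs
import Pool.Agent.Helper3.GU.Main

/-!
# Pairs of matrices with product zero and prescribed zeros decide every property
-/

set_option autoImplicit false

open CategoryTheory AlgebraicGeometry Pool.Agent.Y116.UV Pool.Agent.Q282.UK Matrix
open Pool.Agent.Helper3.GU

namespace Pool.Agent.Helper53.SZ

/-! ### The functors of the schemes -/

/-- the equations of the pairs of matrices -/
noncomputable def abEq (R : Type) [CommRing R] {a b c : ℕ} (S : Fin a → Fin b → Prop)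
    (T : Fin b → Fin c → Prop) :
    (Fin a × Fin c) ⊕ ({p : Fin a × Fin b // ¬ S p.1 p.2} ⊕ {p : Fin b × Fin c // ¬ T p.1 p.2}) →
      MvPolynomial ((Fin a × Fin b) ⊕ (Fin b × Fin c)) R :=
  Sum.elim (fun p => ∑ j, MvPolynomial.X (Sum.inl (p.1, j)) * MvPolynomial.X (Sum.inr (j, p.2)))
    (Sum.elim (fun p => MvPolynomial.X (Sum.inl p.1)) (fun p => MvPolynomial.X (Sum.inr p.1)))

lemma productIdeal_eq (R : Type) [CommRing R] {a b c : ℕ} (S : Fin a → Fin b → Prop)
    (T : Fin b → Fin c → Prop) : productIdeal R S T = Ideal.span (Set.range (abEq R S T)) := by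
  rw [productIdeal]
  congr 1
  ext f
  constructor
  · rintro (⟨i, k, rfl⟩ | ⟨i, j, h, rfl⟩ | ⟨j, k, h, rfl⟩)
    · exact ⟨Sum.inl (i, k), rfl⟩
    · exact ⟨Sum.inr (Sum.inl ⟨(i, j), h⟩), rfl⟩
    · exact ⟨Sum.inr (Sum.inr ⟨(j, k), h⟩), rfl⟩
  · rintro ⟨(⟨i, k⟩ | ⟨⟨i, j⟩, h⟩ | ⟨⟨j, k⟩, h⟩), rfl⟩
    · exact Or.inl ⟨i, k, rfl⟩
    · exact Or.inr (Or.inl ⟨i, j, h, rfl⟩)
    · exact Or.inr (Or.inr ⟨j, k, h, rfl⟩)

/-- the equations of the pairs of matrices as natural functions -/
def abN {a b c : ℕ} (S : Fin a → Fin b → Prop) (T : Fin b → Fin c → Prop) :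
    (Fin a × Fin c) ⊕ ({p : Fin a × Fin b // ¬ S p.1 p.2} ⊕ {p : Fin b × Fin c // ¬ T p.1 p.2}) →
      NF (PT.aff ((Fin a × Fin b) ⊕ (Fin b × Fin c))) :=
  Sum.elim (fun p => ⟨fun x => ∑ j, x.2 (Sum.inl (p.1, j)) * x.2 (Sum.inr (j, p.2)), fun f x => by
      rw [map_sum]
      apply Finset.sum_congr rfl
      intro j _
      exact (map_mul f _ _).symm⟩)
    (Sum.elim (fun p => ⟨fun x => x.2 (Sum.inl p.1), fun _ _ => rfl⟩)
      (fun p => ⟨fun x => x.2 (Sum.inr p.1), fun _ _ => rfl⟩))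

variable {R : Type} [CommRing R] {sep : Prop} {P : Sch R → Prop}

lemma abN_eq {a b c : ℕ} (S : Fin a → Fin b → Prop) (T : Fin b → Fin c → Prop) :
    (fun k => (abN S T k).fn ((PT.map MvPolynomial.C (), MvPolynomial.X) :
      (PT.aff ((Fin a × Fin b) ⊕ (Fin b × Fin c))).pts
        (MvPolynomial ((Fin a × Fin b) ⊕ (Fin b × Fin c)) R))) = abEq R S T := by
  funext k
  rcases k with p | p | p <;> rfl

/-- The pairs of matrices. -/
lemma holds_ab (hP : Clo sep P) {a b c : ℕ} (S : Fin a → Fin b → Prop) (T : Fin b → Fin c → Prop)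
    (h : P (productZero R S T)) :
    Holds P ((PT.aff ((Fin a × Fin b) ⊕ (Fin b × Fin c))).zeros (abN S T)) := by
  have h1 := (rep_PT (R := R)).aff ((Fin a × Fin b) ⊕ (Fin b × Fin c))
  obtain ⟨q, hq⟩ := h1.zeros' (abN S T) (abEq R S T) (abN_eq S T)
  refine ⟨_, inferInstance, inferInstance, inferInstance, q, hq, ?_⟩
  rw [← productIdeal_eq]
  exact h

/-- The pairs of matrices as rows and columns. -/
def abIso {a b c : ℕ} {P' K' F : Type} [Fintype F] (S₁ : P' → F → Prop) (S₂ : K' → F → Prop)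
    (e₁ : P' ≃ Fin a) (e₂ : F ≃ Fin b) (e₃ : K' ≃ Fin c) :
    PIso ((PT.aff ((Fin a × Fin b) ⊕ (Fin b × Fin c))).zeros
      (abN (fun i j => S₁ (e₁.symm i) (e₂.symm j)) (fun j k => S₂ (e₃.symm k) (e₂.symm j))))
      (EX (cf0 F) S₁ S₂ fun _ _ => True) where
  fwd x := ⟨((), (fun p f => x.1.2 (Sum.inl (e₁ p, e₂ f))), fun k f => x.1.2 (Sum.inr (e₂ f, e₃ k))),
    fun p f h => x.2 (Sum.inr (Sum.inl ⟨(e₁ p, e₂ f), fun h1 => h (by simpa using h1)⟩)),
    fun k f h => x.2 (Sum.inr (Sum.inr ⟨(e₂ f, e₃ k), fun h1 => h (by simpa using h1)⟩)), by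
      rintro (p | p) (k | k) h
      · exact p.elim
      · exact p.elim
      · exact k.elim
      · have h1 := x.2 (Sum.inl (e₁ p, e₃ k))
        change ∑ j, x.1.2 (Sum.inl (e₁ p, j)) * x.1.2 (Sum.inr (j, e₃ k)) = 0 at h1
        rw [← e₂.sum_comp] at h1
        exact h1⟩
  bwd y := ⟨((), Sum.elim (fun p => y.1.2.1 (e₁.symm p.1) (e₂.symm p.2))
      fun p => y.1.2.2 (e₃.symm p.2) (e₂.symm p.1)), by
    rintro (⟨i, k⟩ | ⟨⟨i, j⟩, h⟩ | ⟨⟨j, k⟩, h⟩)
    · have h1 := y.2.inc (Sum.inr (e₁.symm i)) (Sum.inr (e₃.symm k)) trivial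
      change ∑ f, y.1.2.1 (e₁.symm i) f * y.1.2.2 (e₃.symm k) f = 0 at h1
      rw [← e₂.symm.sum_comp] at h1
      exact h1
    · exact y.2.s1 _ _ h
    · exact y.2.s2 _ _ h⟩
  left x := by
    apply Subtype.ext
    apply Prod.ext
    · rfl
    · funext k
      rcases k with ⟨i, j⟩ | ⟨j, k⟩
      · change x.1.2 (Sum.inl (e₁ (e₁.symm i), e₂ (e₂.symm j))) = _
        rw [e₁.apply_symm_apply, e₂.apply_symm_apply]
      · change x.1.2 (Sum.inr (e₂ (e₂.symm j), e₃ (e₃.symm k))) = _
        rw [e₂.apply_symm_apply, e₃.apply_symm_apply]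
  right y := by
    apply Subtype.ext
    apply Prod.ext
    · rfl
    · apply Prod.ext
      · funext p f
        change y.1.2.1 (e₁.symm (e₁ p)) (e₂.symm (e₂ f)) = _
        rw [e₁.symm_apply_apply, e₂.symm_apply_apply]
      · funext k f
        change y.1.2.2 (e₃.symm (e₃ k)) (e₂.symm (e₂ f)) = _
        rw [e₃.symm_apply_apply, e₂.symm_apply_apply]
  nat _ _ := rfl

/-- The hypothesis: `P` is true for the pairs of matrices with product zero and prescribed zeros. -/
def BaseP (P : Sch R → Prop) : Prop :=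
  ∀ (a b c : ℕ) (S : Fin a → Fin b → Prop) (T : Fin b → Fin c → Prop), P (productZero R S T)

lemma holds_EX (hP : Clo sep P) (h : BaseP P) {P' K' F : Type} [Finite P'] [Finite K'] [Fintype F]
    (S₁ : P' → F → Prop) (S₂ : K' → F → Prop) :
    Holds P (EX (cf0 F) S₁ S₂ fun _ _ => True) := by
  obtain ⟨a, ⟨e₁⟩⟩ := Finite.exists_equiv_fin P'
  obtain ⟨b, ⟨e₂⟩⟩ := Finite.exists_equiv_fin F
  obtain ⟨c, ⟨e₃⟩⟩ := Finite.exists_equiv_fin K'
  exact (holds_ab hP _ _ (h a b c _ _)).congr (abIso S₁ S₂ e₁ e₂ e₃)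

/-! ### Removing incidences -/

section

variable {P' K' F : Type} (S₁ : P' → F → Prop) (S₂ : K' → F → Prop)
  (E : (cf0 F).P ⊕ P' → (cf0 F).K ⊕ K' → Prop)

/-- the pairs that need not be incident -/
abbrev Gap {P' K' F : Type} (E : (cf0 F).P ⊕ P' → (cf0 F).K ⊕ K' → Prop) : Type :=
  {p : P' × K' // ¬ E (Sum.inr p.1) (Sum.inr p.2)}

/-- the supports of the rows with the slack coordinates -/
def sl1 : P' → F ⊕ Gap E → Prop := fun p f => Sum.elim (S₁ p) (fun z => z.1.1 = p) f

/-- the supports of the columns with the slack coordinates -/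
def sl2 : K' → F ⊕ Gap E → Prop := fun k f => Sum.elim (S₂ k) (fun z => z.1.2 = k) f

variable [Fintype F] [Fintype (Gap E)] [DecidableEq P'] [DecidableEq K'] [DecidableEq F]

/-- the invertible entries -/
def slU : Finset (P' × (F ⊕ Gap E)) := Finset.univ.image fun z : Gap E => (z.1.1, Sum.inr z)

omit [Fintype F] in
lemma mem_slU (z : Gap E) : ((z.1.1, Sum.inr z) : P' × (F ⊕ Gap E)) ∈ slU E :=
  Finset.mem_image.2 ⟨z, Finset.mem_univ _, rfl⟩

variable {E}

omit [Fintype F] [DecidableEq F] in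
lemma sum_gap {C : Type} [CommRing C] (t s : Gap E → C) (p : P') (k : K')
    (h : ¬ E (Sum.inr p) (Sum.inr k)) :
    ∑ z : Gap E, (if z.1.1 = p then t z else 0) * (if z.1.2 = k then s z else 0) =
      t ⟨(p, k), h⟩ * s ⟨(p, k), h⟩ := by
  rw [Finset.sum_eq_single ⟨(p, k), h⟩]
  · rw [if_pos rfl, if_pos rfl]
  · rintro ⟨⟨p', k'⟩, h'⟩ - hne
    by_cases h1 : p' = p
    · by_cases h2 : k' = k
      · subst h1 h2
        exact absurd rfl hne
      · change _ * (if k' = k then _ else _) = _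
        rw [if_neg h2, mul_zero]
    · change (if p' = p then _ else _) * _ = _
      rw [if_neg h1, zero_mul]
  · intro h1
    exact absurd (Finset.mem_univ _) h1

omit [Fintype F] [DecidableEq F] in
lemma sum_gap' {C : Type} [CommRing C] (t s : Gap E → C) (p : P') (k : K')
    (h : E (Sum.inr p) (Sum.inr k)) :
    ∑ z : Gap E, (if z.1.1 = p then t z else 0) * (if z.1.2 = k then s z else 0) = 0 := by
  apply Finset.sum_eq_zero
  rintro ⟨⟨p', k'⟩, h'⟩ -
  by_cases h1 : p' = p
  · by_cases h2 : k' = k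
    · subst h1 h2
      exact absurd h h'
    · change _ * (if k' = k then _ else _) = _
      rw [if_neg h2, mul_zero]
  · change (if p' = p then _ else _) * _ = _
    rw [if_neg h1, zero_mul]

variable {S₁ S₂}

/-- the slack entries of the rows -/
lemma row_gap {C : Type} [CommRing C] {v : P' → F ⊕ Gap E → C}
    (h : ∀ p f, ¬ sl1 S₁ E p f → v p f = 0) (p : P') (z : Gap E) :
    v p (Sum.inr z) = if z.1.1 = p then v z.1.1 (Sum.inr z) else 0 := by
  split_ifs with h1
  · rw [h1]
  · exact h p (Sum.inr z) h1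

/-- the slack entries of the columns -/
lemma col_gap {C : Type} [CommRing C] {w : K' → F ⊕ Gap E → C}
    (h : ∀ k f, ¬ sl2 S₂ E k f → w k f = 0) (k : K') (z : Gap E) :
    w k (Sum.inr z) = if z.1.2 = k then w z.1.2 (Sum.inr z) else 0 := by
  split_ifs with h1
  · rw [h1]
  · exact h k (Sum.inr z) h1

lemma dot_gap {C : Type} [CommRing C] {v : P' → F ⊕ Gap E → C} {w : K' → F ⊕ Gap E → C}
    (h : ∀ p f, ¬ sl1 S₁ E p f → v p f = 0) (h' : ∀ k f, ¬ sl2 S₂ E k f → w k f = 0) (p : P')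
    (k : K') : v p ⬝ᵥ w k = (fun f => v p (Sum.inl f)) ⬝ᵥ (fun f => w k (Sum.inl f)) +
      ∑ z : Gap E, (if z.1.1 = p then v z.1.1 (Sum.inr z) else 0) *
        (if z.1.2 = k then w z.1.2 (Sum.inr z) else 0) := by
  rw [dotProduct, Fintype.sum_sum_type, dotProduct]
  congr 1
  apply Finset.sum_congr rfl
  intro z _
  rw [row_gap h p z, col_gap h' k z]

variable (S₁ S₂ E)

/-- the new rows -/
def slv {C : Type} [CommRing C] (v : P' → F → C) (t : Gap E → C) : P' → F ⊕ Gap E → C :=
  fun p => Sum.elim (v p) fun z => if z.1.1 = p then t z else 0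

/-- the new columns -/
def slw {C : Type} [CommRing C] (w : K' → F → C) (s : Gap E → C) : K' → F ⊕ Gap E → C :=
  fun k => Sum.elim (w k) fun z => if z.1.2 = k then s z else 0

variable {S₁ S₂ E}

lemma slv_supp {C : Type} [CommRing C] {v : P' → F → C} (t : Gap E → C)
    (h : ∀ p f, ¬ S₁ p f → v p f = 0) (p : P') (f : F ⊕ Gap E) (hf : ¬ sl1 S₁ E p f) :
    slv E v t p f = 0 := by
  rcases f with f | z
  · exact h p f hf
  · exact if_neg hf

lemma slw_supp {C : Type} [CommRing C] {w : K' → F → C} (s : Gap E → C)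
    (h : ∀ k f, ¬ S₂ k f → w k f = 0) (k : K') (f : F ⊕ Gap E) (hf : ¬ sl2 S₂ E k f) :
    slw E w s k f = 0 := by
  rcases f with f | z
  · exact h k f hf
  · exact if_neg hf

lemma dot_sl {C : Type} [CommRing C] (v : P' → F → C) (t : Gap E → C) (w : K' → F → C)
    (s : Gap E → C) (p : P') (k : K') : slv E v t p ⬝ᵥ slw E w s k = v p ⬝ᵥ w k +
      ∑ z : Gap E, (if z.1.1 = p then t z else 0) * (if z.1.2 = k then s z else 0) := by
  rw [dotProduct, Fintype.sum_sum_type, dotProduct]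
  rfl

variable (S₁ S₂ E)

/-- **Removing incidences**: for each pair that need not be incident there is a slack coordinate, in
which the entry of the row is invertible. -/
noncomputable def slIso : PIso (EXU (cf0 (F ⊕ Gap E)) (sl1 S₁ E) (sl2 S₂ E) (fun _ _ => True) (slU E))
    ((EX (cf0 F) S₁ S₂ E).tor (Gap E)) where
  fwd x := (⟨((), (fun p f => x.1.2.1 p (Sum.inl f)), fun k f => x.1.2.2 k (Sum.inl f)),
    fun p f h => x.2.1.s1 p (Sum.inl f) h, fun k f h => x.2.1.s2 k (Sum.inl f) h, by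
      rintro (p | p) (k | k) h
      · exact p.elim
      · exact p.elim
      · exact k.elim
      · have h1 := x.2.1.inc (Sum.inr p) (Sum.inr k) trivial
        change x.1.2.1 p ⬝ᵥ x.1.2.2 k = 0 at h1
        rw [dot_gap x.2.1.s1 x.2.1.s2, sum_gap' (fun z => x.1.2.1 z.1.1 (Sum.inr z))
          (fun z => x.1.2.2 z.1.2 (Sum.inr z)) p k h, add_zero] at h1
        exact h1⟩, fun z => (x.2.2 _ (mem_slU E z)).unit)
  bwd {C} _ y := ⟨((), slv E y.1.1.2.1 (fun z => ((y.2 z : Cˣ) : C)), slw E y.1.1.2.2 (fun z =>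
      -(((y.2 z)⁻¹ : Cˣ) : C) * (y.1.1.2.1 z.1.1 ⬝ᵥ y.1.1.2.2 z.1.2))),
    ⟨slv_supp _ y.1.2.s1, slw_supp _ y.1.2.s2, by
      rintro (p | p) (k | k) -
      · exact p.elim
      · exact p.elim
      · exact k.elim
      · change slv E y.1.1.2.1 (fun z => ((y.2 z : Cˣ) : C)) p ⬝ᵥ slw E y.1.1.2.2 (fun z =>
          -(((y.2 z)⁻¹ : Cˣ) : C) * (y.1.1.2.1 z.1.1 ⬝ᵥ y.1.1.2.2 z.1.2)) k = 0
        rw [dot_sl]
        by_cases h : E (Sum.inr p) (Sum.inr k)
        · rw [sum_gap' _ _ p k h, add_zero]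
          exact y.1.2.inc (Sum.inr p) (Sum.inr k) h
        · rw [sum_gap _ _ p k h]
          have h1 := (y.2 ⟨(p, k), h⟩).mul_inv
          linear_combination (-(y.1.1.2.1 p ⬝ᵥ y.1.1.2.2 k)) * h1⟩, by
      intro b hb
      obtain ⟨z, -, rfl⟩ := Finset.mem_image.1 hb
      change IsUnit (if z.1.1 = z.1.1 then ((y.2 z : Cˣ) : C) else 0)
      rw [if_pos rfl]
      exact Units.isUnit _⟩
  left {C} _ x := by
    apply Subtype.ext
    apply Prod.ext
    · rfl
    · apply Prod.ext
      · funext p f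
        rcases f with f | z
        · rfl
        · exact (row_gap x.2.1.s1 p z).symm
      · funext k f
        rcases f with f | z
        · rfl
        · rw [col_gap x.2.1.s2 k z]
          change (if z.1.2 = k then _ else _) = _
          split_ifs with h
          · have h1 := x.2.1.inc (Sum.inr z.1.1) (Sum.inr z.1.2) trivial
            change x.1.2.1 z.1.1 ⬝ᵥ x.1.2.2 z.1.2 = 0 at h1
            rw [dot_gap x.2.1.s1 x.2.1.s2, sum_gap (fun z => x.1.2.1 z.1.1 (Sum.inr z))
              (fun z => x.1.2.2 z.1.2 (Sum.inr z)) z.1.1 z.1.2 z.2] at h1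
            have h2 := (x.2.2 _ (mem_slU E z)).unit.inv_mul
            change -(((x.2.2 _ (mem_slU E z)).unit⁻¹ : Cˣ) : C) *
              ((fun f => x.1.2.1 z.1.1 (Sum.inl f)) ⬝ᵥ (fun f => x.1.2.2 z.1.2 (Sum.inl f))) = _
            change (((x.2.2 _ (mem_slU E z)).unit⁻¹ : Cˣ) : C) * x.1.2.1 z.1.1 (Sum.inr z) = 1 at h2
            change _ + x.1.2.1 z.1.1 (Sum.inr z) * x.1.2.2 z.1.2 (Sum.inr z) = 0 at h1
            linear_combination (-(((x.2.2 _ (mem_slU E z)).unit⁻¹ : Cˣ) : C)) * h1 +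
              x.1.2.2 z.1.2 (Sum.inr z) * h2
          · rfl
  right {C} _ y := by
    apply Prod.ext
    · rfl
    · funext z
      apply Units.ext
      exact if_pos rfl
  nat {C D} _ _ f x := by
    apply Prod.ext
    · rfl
    · funext z
      exact Units.ext rfl

end

/-- The empty configuration, from the pairs of matrices. -/
lemma full_cf0 (hP : Clo sep P) (h : BaseP P) (F : Type) [Fintype F] : Full P (cf0 F) := by
  classical
  intro P' K' _ _ S₁ S₂ E
  have := Fintype.ofFinite P'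
  have := Fintype.ofFinite K'
  have h1 := unit_of hP (c := cf0 (F ⊕ Gap E)) (sl2 S₂ E) (fun _ _ => True)
    (fun S => holds_EX hP h S (sl2 S₂ E)) (slU E) (sl1 S₁ E)
  exact of_tor hP (hasRep_EX (c := cf0 F) hasRep_PT _ _ _) (h1.congr (slIso S₁ S₂ E))

open Classical in
/-- the bilinear systems -/
lemma bil_of_holds (hP : Clo sep P) {a b c : ℕ} (T : Fin a → Fin b → Fin c → R)
    (hT : ∀ i j l, T i j l ∈ ({0, 1} : Set R)) (h : Holds P (BF fun i j l => T i j l = 1)) :
    P (bilS T) := by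
  let F : PF := PT.aff (Fin a ⊕ Fin b)
  let g : Fin c → NF F := fun l =>
    ⟨fun p => ∑ i, ∑ j, if T i j l = 1 then p.2 (Sum.inl i) * p.2 (Sum.inr j) else 0, fun f p => by
      simp only [map_sum]
      apply Finset.sum_congr rfl
      intro i _
      apply Finset.sum_congr rfl
      intro j _
      change (if _ then f _ * f _ else 0) = f (if _ then _ else 0)
      split_ifs
      · rw [map_mul]
      · rw [map_zero]⟩
  have h1 := (rep_PT (R := R)).aff (Fin a ⊕ Fin b)
  obtain ⟨q, hq⟩ := h1.zeros' g (bform T) (by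
    funext l
    rw [bform]
    change (∑ i, ∑ j, if T i j l = 1 then (MvPolynomial.X (Sum.inl i) *
      MvPolynomial.X (Sum.inr j) : MvPolynomial (Fin a ⊕ Fin b) R) else 0) = _
    apply Finset.sum_congr rfl
    intro i _
    apply Finset.sum_congr rfl
    intro j _
    by_cases h2 : T i j l = 1
    · rw [if_pos h2, h2, map_one, one_mul]
    · rw [if_neg h2]
      rcases hT i j l with h3 | h3
      · rw [h3, map_zero, zero_mul, zero_mul]
      · exact absurd h3 h2)
  let e : PIso (F.zeros g) (BF fun i j l => T i j l = 1) :=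
    ⟨fun p => ⟨(fun i => p.1.2 (Sum.inl i), fun j => p.1.2 (Sum.inr j)), fun l => p.2 l⟩,
      fun y => ⟨((), Sum.elim y.1.1 y.1.2), fun l => y.2 l⟩, fun p => by
        apply Subtype.ext
        apply Prod.ext
        · rfl
        · funext k
          rcases k with k | k <;> rfl, fun _ => rfl, fun _ _ => rfl⟩
  exact of_rep hP h (hq.congr e)

/-- **Pairs of matrices with product zero decide everything.** Let `R` be a ring such that all algebras
of finite type have presentations with coefficients `0` and `1`, and let `P` be a property of the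
schemes of finite type over `R` which is closed under closed-open decompositions and descends from
`X × 𝔾_m` to `X`. If `P` is true for the schemes of the pairs of matrices with product zero and
prescribed zeros, then it is true for all (separated) schemes of finite type over `R`. -/
theorem product_universal (hP : Clo sep P) (hR : Presents ({0, 1} : Set R)) (h : BaseP P)
    (X : Sch R) (hX : FT sep X) : P X := by
  classical
  refine clo_universal hP (S := {0, 1}) (by simp) (by simp) ?_ hR X hX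
  intro a b c T hT
  exact bil_of_holds hP T hT (holds_BF _ hP fun F _ => full_cf0 hP h F)

end Pool.Agent.Helper53.SZ
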