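import Pool.Agent.Helper53.SZ.Weight

/-!
# Simple objects that occur in the cohomology of one weight
-/

set_option autoImplicit false

open CategoryTheory CategoryTheory.Limits AlgebraicGeometry Pool.Agent.Y116.UV Pool.Agent.Q193.LT
  Pool.Agent.Q282.UK

universe v u

namespace Pool.Agent.Helper53.SZ

/-- The object `N` is a direct factor of `H n X` for some `n`. -/
def Occurs {R : Type} [CommRing R] {A : Type u} [Category.{v} A] (H : ℤ → Sch R → A) (N : A)
    (X : Sch R) : Prop :=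
  ∃ (n : ℤ) (i : N ⟶ H n X) (r : H n X ⟶ N), i ≫ r = 𝟙 N

variable {A : Type u} [Category.{v} A] [Abelian A]

/-- In a semisimple abelian category the objects in which the simple object `N` does not occur form a
Serre class. -/
theorem notOcc_serre (hss : ∀ {X Y : A} (f : X ⟶ Y), Mono f → ∃ r : Y ⟶ X, f ≫ r = 𝟙 X) (N : A)
    (hN : Simple N) : IsSerre fun M : A => ¬ ∃ (i : N ⟶ M) (r : M ⟶ N), i ≫ r = 𝟙 N := by
  refine serre_of_semisimple hss ?_ ?_ ?_
  · rintro X hX ⟨i, r, hir⟩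
    have h1 : i = 0 := hX.eq_of_tgt _ _
    rw [h1, zero_comp] at hir
    exact id_nonzero N hir.symm
  · rintro X Y i r hir hY ⟨i', r', h'⟩
    refine hY ⟨i' ≫ i, r ≫ r', ?_⟩
    rw [Category.assoc, ← Category.assoc i, hir, Category.id_comp, h']
  · rintro X Y hX hY ⟨i, r, hir⟩
    have h1 : (i ≫ biprod.fst) ≫ (biprod.inl ≫ r) + (i ≫ biprod.snd) ≫ (biprod.inr ≫ r) =
        𝟙 N := by
      have h2 := biprod.total (X := X) (Y := Y)
      have h3 : i ≫ (biprod.fst ≫ biprod.inl + biprod.snd ≫ biprod.inr) ≫ r = 𝟙 N := by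
        rw [h2, Category.id_comp, hir]
      simpa only [Preadditive.comp_add, Preadditive.add_comp, Category.assoc] using h3
    have key : ∀ {Z : A} (s : N ⟶ Z) (t : Z ⟶ N), s ≫ t ≠ 0 →
        ∃ (i : N ⟶ Z) (r : Z ⟶ N), i ≫ r = 𝟙 N := by
      intro Z s t h
      have : IsIso (s ≫ t) := isIso_of_hom_simple h
      exact ⟨s, t ≫ inv (s ≫ t), by rw [← Category.assoc, IsIso.hom_inv_id]⟩
    by_cases h2 : (i ≫ biprod.fst) ≫ (biprod.inl ≫ r) = 0
    · rw [h2, zero_add] at h1
      refine hY (key (i ≫ biprod.snd) (biprod.inr ≫ r) ?_)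
      rw [h1]
      exact id_nonzero N
    · exact hX (key _ _ h2)

section

variable {k : Type} [Field k] {H : ℤ → Sch k → A}

/-- The simple objects that occur for smooth projective schemes are those that occur for the matrices
with square zero. -/
theorem occurs_tfae (hk : Presents ({0, 1} : Set k)) (hH : IsPieces H) (hg : IsGenerated H)
    (hss : ∀ {X Y : A} (f : X ⟶ Y), Mono f → ∃ r : Y ⟶ X, f ≫ r = 𝟙 X) (N : A) (hN : Simple N) :
    [∃ Y : Sch k, SmoothProj Y ∧ Occurs H N Y,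
      ∃ X : Sch k, FT True X ∧ Occurs H N X,
      ∃ (a b c : ℕ) (S : Fin a → Fin b → Prop) (T : Fin b → Fin c → Prop),
        Occurs H N (productZero k S T),
      ∃ (m : ℕ) (G : Fin m → Fin m → Prop), (∀ i j, G i j → i < j) ∧
        Occurs H N (squareZero k G)].TFAE := by
  have h := pieces_tfae hk hH hg (notOcc_serre hss N hN)
  have e : ∀ X : Sch k, (∀ n, ¬ ∃ (i : N ⟶ H n X) (r : H n X ⟶ N), i ≫ r = 𝟙 N) ↔
      ¬ Occurs H N X := by
    intro X
    unfold Occurs
    push Not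
    rfl
  have h10 := h.out 1 0
  have h01 := h.out 0 1
  have h12 := h.out 1 2
  have h23 := h.out 2 3
  tfae_have 1 ↔ 2 := by
    constructor
    · rintro ⟨Y, hY, h1⟩
      exact ⟨Y, hY.ft, h1⟩
    · rintro ⟨X, hX, h1⟩
      by_contra h2
      push Not at h2
      exact (e X).1 (h01.1 (fun Y hY => (e Y).2 (h2 Y hY)) X hX) h1
  tfae_have 2 ↔ 3 := by
    constructor
    · rintro ⟨X, hX, h1⟩
      by_contra h2
      push Not at h2
      exact (e X).1 (h12.2 (fun a b c S T => (e _).2 (h2 a b c S T)) X hX) h1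
    · rintro ⟨a, b, c, S, T, h1⟩
      exact ⟨_, ft_product S T, h1⟩
  tfae_have 3 ↔ 4 := by
    constructor
    · rintro ⟨a, b, c, S, T, h1⟩
      by_contra h2
      push Not at h2
      exact (e _).1 (h23.2 (fun m G hG => (e _).2 (h2 m G hG)) a b c S T) h1
    · rintro ⟨m, G, hG, h1⟩
      by_contra h2
      push Not at h2
      exact (e _).1 (h23.1 (fun a b c S T => (e _).2 (h2 a b c S T)) m G hG) h1
  tfae_finish

/-- **One scheme.** -/
theorem occurs_list (hk : Presents ({0, 1} : Set k)) (X : Sch k) (hX : FT True X) :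
    ∃ L : List (Σ m : ℕ, Fin m → Fin m → Prop), (∀ G ∈ L, ∀ i j, G.2 i j → i < j) ∧
      ∀ {A : Type u} [Category.{v} A] [Abelian A]
        (_ : ∀ {X Y : A} (f : X ⟶ Y), Mono f → ∃ r : Y ⟶ X, f ≫ r = 𝟙 X)
        {H : ℤ → Sch k → A}, IsPieces H → ∀ N : A, Simple N → Occurs H N X →
          ∃ G ∈ L, Occurs H N (squareZero k G.2) := by
  obtain ⟨L, hL, h⟩ := finite_list (sep := True) hk X hX
  refine ⟨L, hL, fun {A} _ _ hss {H} hH N hN hX' => ?_⟩
  by_contra hc
  push Not at hc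
  have h1 := h (fun X => ∀ n, ¬ ∃ (i : N ⟶ H n X) (r : H n X ⟶ N), i ≫ r = 𝟙 N)
    (clo_pieces hH (notOcc_serre hss N hN)) fun G hG n hn => hc G hG ⟨n, hn⟩
  obtain ⟨n, hn⟩ := hX'
  exact h1 n hn

end

end Pool.Agent.Helper53.SZ
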