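import Pool.Agent.Helper53.SZ.Defs
import Pool.Graph.R_seed8.Q193.LT.Pair
import Pool.Graph.R_pool_sql_team_seeded_2aa45f1a.Q193.LT.Defs

/-!
# Comparison maps in one weight: definitions
-/

set_option autoImplicit false

open CategoryTheory CategoryTheory.Limits AlgebraicGeometry Pool.Agent.Y116.UV Pool.Agent.Q193.LT

universe w w'

namespace Pool.Agent.Helper53.SZ

/-- The standard properties of a comparison map `ρ : A j X → B j X` between two theories in **one fixed
weight** (there are no Tate twists): isomorphisms, compatible long exact sequences for a closed subscheme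
`Z` of `X` and its complement `U` (covariant or contravariant; `δ` is the shift), and the map for `X` in
degree `j` is a direct factor of the map for `X × 𝔾_m` in degree `σ j`, for affine `X`. -/
structure IsPairOne {R : Type} [CommRing R] {ι : Type} {E : Type w'} [CommRing E]
    (D : PairData.{w} R ι E) (δ σ : ι ≃ ι) : Prop where
  iso : ∀ {X Y : Sch R}, FT True X → Nonempty (X ≅ Y) → ∀ j, SameAt D j X j Y
  les : ∀ {Z X U : Sch R} (i : Z ⟶ X) (j : U ⟶ X), FT True X → IsTriple i j →
    LesPair D δ U X Z ∨ LesPair D δ Z X U
  torus : ∀ (B : Type) [CommRing B] [Algebra R B] [Algebra.FiniteType R B] (q : ι),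
    FactorAt D q (aff R B) (σ q) (aff R (LaurentPolynomial B))

/-- Smooth projective schemes generate: if the maps are bijective for all smooth projective schemes then
they are bijective for all separated schemes of finite type. -/
def PairGen {k : Type} [Field k] {ι : Type} {E : Type w'} [CommRing E] (D : PairData.{w} k ι E) :
    Prop :=
  (∀ Y : Sch k, SmoothProj Y → BijAll D Y) → ∀ X : Sch k, FT True X → BijAll D X

end Pool.Agent.Helper53.SZ
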