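import Pool.Agent.Helper53.SZ.PDefs
import Pool.Agent.Helper53.SZ.Lst

/-!
# Comparison maps in one weight
-/

set_option autoImplicit false

open CategoryTheory CategoryTheory.Limits AlgebraicGeometry Pool.Agent.Y116.UV Pool.Agent.Q193.LT
  Pool.Agent.Q282.UK

universe w w'

namespace Pool.Agent.Helper53.SZ

/-- Closure properties of the schemes for which the comparison map is bijective. -/
theorem clo_pair {R : Type} [CommRing R] {ι : Type} {E : Type w'} [CommRing E]
    {D : PairData.{w} R ι E} {δ σ : ι ≃ ι} (hD : IsPairOne D δ σ) : Clo True (BijAll D) where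
  iso hX e h j := (hD.iso hX e j).iff.mp (h j)
  total i j hX ht hZ hU := by
    rcases hD.les i j hX ht with h | h
    · exact h.mid hU hZ
    · exact h.mid hZ hU
  opened i j hX ht hZ hX' := by
    rcases hD.les i j hX ht with h | h
    · exact h.left hX' hZ
    · exact h.right hZ hX'
  torus B _ _ _ h q := (hD.torus B q).bij (h _)

variable {k : Type} [Field k]

/-- **All schemes.** -/
theorem pair_tfae (hk : Presents ({0, 1} : Set k)) {ι : Type} {E : Type w'} [CommRing E]
    {D : PairData.{w} k ι E} {δ σ : ι ≃ ι} (hD : IsPairOne D δ σ) (hg : PairGen D) :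
    [∀ Y : Sch k, SmoothProj Y → BijAll D Y,
      ∀ X : Sch k, FT True X → BijAll D X,
      ∀ (a b c : ℕ) (S : Fin a → Fin b → Prop) (T : Fin b → Fin c → Prop),
        BijAll D (productZero k S T),
      ∀ (m : ℕ) (G : Fin m → Fin m → Prop), (∀ i j, G i j → i < j) →
        BijAll D (squareZero k G)].TFAE := by
  have h := square_tfae (clo_pair hD) hk
  have h01 := h.out 0 1
  have h12 := h.out 1 2
  tfae_have 1 → 2 := hg
  tfae_have 2 → 1 := fun h1 Y hY => h1 Y hY.ft
  tfae_have 2 ↔ 3 := h01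
  tfae_have 3 ↔ 4 := h12
  tfae_finish

/-- **One scheme and finitely many patterns.** -/
theorem pair_list (hk : Presents ({0, 1} : Set k)) (S : Sch k) (hS : SmoothProj S) :
    ∃ L : List (Σ m : ℕ, Fin m → Fin m → Prop), (∀ G ∈ L, ∀ i j, G.2 i j → i < j) ∧
      ∀ {ι : Type} {E : Type w'} [CommRing E] (D : PairData.{w} k ι E) {δ σ : ι ≃ ι},
        IsPairOne D δ σ → PairGen D → ∀ Q : Prop, (BijAll D S → Q) →
        (Q → ∀ Y, SmoothProj Y → BijAll D Y) →
        [Q, ∀ X : Sch k, FT True X → BijAll D X, ∀ G ∈ L, BijAll D (squareZero k G.2)].TFAE := by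
  obtain ⟨L, hL, h⟩ := finite_list (sep := True) hk S hS.ft
  refine ⟨L, hL, fun {ι E} _ D {δ σ} hD hg Q h1 h2 => ?_⟩
  tfae_have 1 → 2 := fun hQ => hg (h2 hQ)
  tfae_have 2 → 3 := fun h3 G _ => h3 _ (ft_square G.2)
  tfae_have 3 → 1 := fun h3 => h1 (h _ (clo_pair hD) h3)
  tfae_finish

end Pool.Agent.Helper53.SZ
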