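import Pool.Agent.Helper3.GU.Bil

/-!
# Configurations of rows and columns under the weak closure rules

The rules `iso`, `total`, `opened` and `torus` of `Clo` are enough for adding rows and columns to a
configuration and for the passage from configurations to systems of bilinear equations.
-/

set_option autoImplicit false

open CategoryTheory AlgebraicGeometry Pool.Agent.Y116.UV Pool.Agent.Q282.UK Matrix
open Pool.Agent.Helper3.GU

namespace Pool.Agent.Helper53.SZ

section

variable {R : Type} [CommRing R] {sep : Prop} {P : Sch R → Prop} {F G : PF}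

lemma of_rep (hP : Clo sep P) (h : Holds P F) {B : Type} [CommRing B] [Algebra R B]
    {b : F.pts B} (hB : IsRep R F B b) : P (Pool.Agent.Y116.UV.aff R B) := by
  obtain ⟨B', i1, i2, i3, b', h1, h2⟩ := h
  obtain ⟨e⟩ := h1.iso hB
  exact clo_alg hP e h2

/-- from the whole space and the closed part to the open part -/
lemma opened (hP : Clo sep P) (h : Holds P F) (g : NF F) (h0 : Holds P (F.zero g)) :
    Holds P (F.unit g) := by
  obtain ⟨B, i1, i2, i3, b, h1, h2⟩ := h
  exact ⟨_, inferInstance, inferInstance, ft_loc _ _, _, h1.unit g rfl,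
    hP.opened _ _ (ft_aff sep) (triple_away (g.fn b)) (of_rep hP h0 (h1.zero g rfl)) h2⟩

/-- from the closed part and the open part to the whole space -/
lemma total (hP : Clo sep P) (hF : HasRep R F) (g : NF F) (h0 : Holds P (F.zero g))
    (h1 : Holds P (F.unit g)) : Holds P F := by
  obtain ⟨B, i1, i2, i3, b, h2⟩ := hF
  exact ⟨B, i1, i2, i3, b, h2, hP.total _ _ (ft_aff sep) (triple_away (g.fn b))
    (of_rep hP h0 (h2.zero g rfl)) (of_rep hP h1 (h2.unit g rfl))⟩

lemma of_tor_one (hP : Clo sep P) (hF : HasRep R F) (h : Holds P (F.tor PUnit)) :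
    Holds P F := by
  obtain ⟨B, i1, i2, i3, b, h1⟩ := hF
  refine ⟨B, i1, i2, i3, b, h1, hP.torus B ?_⟩
  have h2 := h1.aff PUnit
  let e : MvPolynomial PUnit B ≃ₐ[R] Polynomial B :=
    (MvPolynomial.uniqueAlgEquiv B PUnit).restrictScalars R
  have h3 := h2.alg e
  have hX : (⟨fun p => p.2 ⟨⟩, fun _ _ => rfl⟩ : NF (F.aff PUnit)).fn
      ((F.aff PUnit).map ((e : MvPolynomial PUnit B →ₐ[R] Polynomial B) :
        MvPolynomial PUnit B →+* Polynomial B)
        (F.map MvPolynomial.C b, MvPolynomial.X)) = (Polynomial.X : Polynomial B) := by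
    change (MvPolynomial.uniqueAlgEquiv B PUnit) (MvPolynomial.X PUnit.unit) = Polynomial.X
    simp
  have h4 := h3.unit _ hX
  have hs : IsScalarTower R (Polynomial B) (LaurentPolynomial B) :=
    IsScalarTower.of_algebraMap_eq fun r => by
      rw [LaurentPolynomial.algebraMap_eq_toLaurent, LaurentPolynomial.algebraMap_apply,
        Polynomial.algebraMap_apply, Polynomial.toLaurent_C]
  have h5 : Localization.Away (Polynomial.X : Polynomial B) ≃ₐ[R] LaurentPolynomial B :=
    (IsLocalization.algEquiv (Submonoid.powers (Polynomial.X : Polynomial B))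
      (Localization.Away (Polynomial.X : Polynomial B)) (LaurentPolynomial B)).restrictScalars R
  exact of_rep hP h ((h4.alg h5).congr (torUnit F))

lemma of_tor (hP : Clo sep P) (hF : HasRep R F) {κ : Type} [Finite κ]
    (h : Holds P (F.tor κ)) : Holds P F := by
  induction κ using Finite.induction_empty_option with
  | of_equiv e ih => exact ih (h.congr (torCongr F e.symm))
  | h_empty => exact h.congr (torEmpty F).symm
  | h_option ih => exact ih (of_tor_one hP (hF.tor _) (h.congr (torOption F _).symm))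

end

section

variable {R : Type} [CommRing R] {sep : Prop} {P : Sch R → Prop} {F : Type} [Fintype F]
  [DecidableEq F]

/-- Making the entries in `U` invertible. -/
lemma unit_of (hP : Clo sep P) {c : Cf F} {P' K' : Type} [Finite P'] [Finite K']
    (S₂ : K' → F → Prop) (E : c.P ⊕ P' → c.K ⊕ K' → Prop)
    (hc : ∀ S₁ : P' → F → Prop, Holds P (EX c S₁ S₂ E)) (U : Finset (P' × F)) :
    ∀ S₁ : P' → F → Prop, Holds P (EXU c S₁ S₂ E U) := by
  classical
  induction U using Finset.induction_on with
  | empty =>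
    intro S₁
    exact (hc S₁).congr ⟨fun x => ⟨x.1, x.2, fun a ha => absurd ha (by simp)⟩,
      fun x => ⟨x.1, x.2.1⟩, fun _ => rfl, fun _ => rfl, fun _ _ => rfl⟩
  | insert a U ha ih =>
    intro S₁
    let g : NF (EXU c S₁ S₂ E U) := ⟨fun x => x.1.2.1 a.1 a.2, fun _ _ => rfl⟩
    have h1 : Holds P ((EXU c S₁ S₂ E U).zero g) := by
      refine (ih fun p f => S₁ p f ∧ (p, f) ≠ a).congr ⟨fun x => ⟨⟨x.1, ⟨fun p f h =>
        x.2.1.s1 p f fun h1 => h h1.1, x.2.1.s2, x.2.1.inc⟩, x.2.2⟩,
          x.2.1.s1 a.1 a.2 fun h1 => h1.2 rfl⟩, fun y => ⟨y.1.1, ⟨fun p f h => ?_, y.1.2.1.s2,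
            y.1.2.1.inc⟩, y.1.2.2⟩, fun _ => rfl, fun _ => rfl, fun _ _ => rfl⟩
      by_cases h1 : (p, f) = a
      · subst h1
        exact y.2
      · exact y.1.2.1.s1 p f fun h2 => h ⟨h2, h1⟩
    refine (opened hP (ih S₁) g h1).congr ⟨fun x => ⟨x.1.1, x.1.2.1, fun b hb => ?_⟩,
      fun y => ⟨⟨y.1, y.2.1, fun b hb => y.2.2 b (Finset.mem_insert_of_mem hb)⟩,
        y.2.2 a (Finset.mem_insert_self _ _)⟩, fun _ => rfl, fun _ => rfl, fun _ _ => rfl⟩
    rcases Finset.mem_insert.1 hb with rfl | hb
    · exact x.2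
    · exact x.1.2.2 b hb

/-- **Adding rows** which are determined up to invertible factors. -/
theorem full_add (hP : Clo sep P) {c : Cf F} (hc : Full P c) {X' : PF} (hX : HasRep R X')
    {κ : Type} [Finite κ] (a : AddData c X' κ) : Full P a.cf := by
  classical
  intro P' K' _ _ S₁ S₂ E
  have := Fintype.ofFinite κ
  have h1 := unit_of hP S₂ (incE a E) (fun S => hc (κ ⊕ P') K' S S₂ (incE a E)) (uSet a)
    (Sum.elim a.S S₁)
  exact of_tor hP (hasRep_EX (c := a.cf) hX _ _ _) (h1.congr (addIso a E S₁ S₂))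

/-- **Adding columns** which are determined up to invertible factors. -/
theorem full_addCol (hP : Clo sep P) {c : Cf F} (hc : Full P c) {X' : PF} (hX : HasRep R X')
    {κ : Type} [Finite κ] (a : AddData c.swap X' κ) : Full P (c.addCol a.π a.r a.hr) :=
  (full_add hP hc.swap hX a).swap

omit [DecidableEq F] in
lemma full_cf1 (hP : Clo sep P) (h0 : Full P (cf0 F)) : Full P (cf1 F) := by
  classical
  intro P' K' _ _ S₁ S₂ E
  have h1 := unit_of hP S₂ (gE E) (fun S => h0 (Unit ⊕ P') K' S S₂ (gE E)) (gU P' F)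
    (Sum.elim (fun _ _ => True) S₁)
  exact of_tor hP (hasRep_EX (c := cf1 F) hasRep_PT _ _ _) (h1.congr (gIso S₁ S₂ E))

end

section

variable {R : Type} [CommRing R] {sep : Prop} {P : Sch R → Prop} {I J L : Type} [Fintype I]
  [Fintype J] [Fintype L] (T : I → J → L → Prop)

theorem holds_BF (hP : Clo sep P) (h0 : ∀ (F : Type) [Fintype F], Full P (cf0 F))
    [DecidableEq I] [DecidableEq J] [DecidableEq L] [∀ i j l, Decidable (T i j l)] :
    Holds P (BF T) := by
  have h1 := full_cf1 hP (h0 (Fr I J L))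
  have h2 : Full P (c2 I J L) := full_addCol hP h1 hasRep_PT (a2 I J L)
  have h3 := full_add hP h2 hasRep_PT (a3 I J L)
  have hJ : HasRep R (PT.aff J) := hasRep_PT.aff J
  have h4 := full_add hP h3 hJ (a4 I J L)
  have h5 : Full P (c5 I J L) := full_addCol hP h4 hJ (a5 I J L)
  have h6 := full_add hP h5 hJ (a6 I J L)
  have h7 : Full P (c7 T) := full_addCol hP h6 hJ (a7 T)
  have h8 := full_add hP h7 (hJ.aff I) (a8 T)
  exact (h8 PEmpty PEmpty (fun _ _ => False) (fun _ _ => False) (lastE T)).congr (lastIso T)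

end

end Pool.Agent.Helper53.SZ
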