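import Pool.Agent.Helper53.SZ.Base

/-!
# Matrices with square zero and prescribed zeros decide every property
-/

set_option autoImplicit false

open CategoryTheory AlgebraicGeometry Pool.Agent.Y116.UV Pool.Agent.Q282.UK Matrix
open Pool.Agent.Helper3.GU

namespace Pool.Agent.Helper53.SZ

/-- the equations of the matrices with square zero -/
noncomputable def sqEq (R : Type) [CommRing R] {n : ℕ} (G : Fin n → Fin n → Prop) :
    (Fin n × Fin n) ⊕ {p : Fin n × Fin n // ¬ G p.1 p.2} → MvPolynomial (Fin n × Fin n) R :=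
  Sum.elim (fun p => ∑ j, MvPolynomial.X (p.1, j) * MvPolynomial.X (j, p.2))
    (fun p => MvPolynomial.X p.1)

lemma squareIdeal_eq (R : Type) [CommRing R] {n : ℕ} (G : Fin n → Fin n → Prop) :
    squareIdeal R G = Ideal.span (Set.range (sqEq R G)) := by
  rw [squareIdeal]
  congr 1
  ext f
  constructor
  · rintro (⟨i, k, rfl⟩ | ⟨i, j, h, rfl⟩)
    · exact ⟨Sum.inl (i, k), rfl⟩
    · exact ⟨Sum.inr ⟨(i, j), h⟩, rfl⟩
  · rintro ⟨(⟨i, k⟩ | ⟨⟨i, j⟩, h⟩), rfl⟩
    · exact Or.inl ⟨i, k, rfl⟩
    · exact Or.inr ⟨i, j, h, rfl⟩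

/-- the equations of the matrices with square zero as natural functions -/
def sqN {n : ℕ} (G : Fin n → Fin n → Prop) :
    (Fin n × Fin n) ⊕ {p : Fin n × Fin n // ¬ G p.1 p.2} → NF (PT.aff (Fin n × Fin n)) :=
  Sum.elim (fun p => ⟨fun x => ∑ j, x.2 (p.1, j) * x.2 (j, p.2), fun f x => by
      rw [map_sum]
      apply Finset.sum_congr rfl
      intro j _
      exact (map_mul f _ _).symm⟩)
    (fun p => ⟨fun x => x.2 p.1, fun _ _ => rfl⟩)

variable {R : Type} [CommRing R] {sep : Prop} {P : Sch R → Prop}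

lemma sqN_eq {n : ℕ} (G : Fin n → Fin n → Prop) :
    (fun k => (sqN G k).fn ((PT.map MvPolynomial.C (), MvPolynomial.X) :
      (PT.aff (Fin n × Fin n)).pts (MvPolynomial (Fin n × Fin n) R))) = sqEq R G := by
  funext k
  rcases k with p | p <;> rfl

/-- The matrices with square zero. -/
lemma holds_sq {n : ℕ} (G : Fin n → Fin n → Prop) (h : P (squareZero R G)) :
    Holds P ((PT.aff (Fin n × Fin n)).zeros (sqN G)) := by
  have h1 := (rep_PT (R := R)).aff (Fin n × Fin n)
  obtain ⟨q, hq⟩ := h1.zeros' (sqN G) (sqEq R G) (sqN_eq G)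
  refine ⟨_, inferInstance, inferInstance, inferInstance, q, hq, ?_⟩
  rw [← squareIdeal_eq]
  exact h

section

variable {a b c : ℕ}

/-- the three layers -/
def e3 (a b c : ℕ) : Fin a ⊕ (Fin b ⊕ Fin c) ≃ Fin (a + (b + c)) :=
  (Equiv.sumCongr (Equiv.refl _) finSumFinEquiv).trans finSumFinEquiv

/-- the relation of the three layers -/
def rel3 (S : Fin a → Fin b → Prop) (T : Fin b → Fin c → Prop) (v w : Fin a ⊕ (Fin b ⊕ Fin c)) :
    Prop :=
  Sum.elim (fun i => Sum.elim (fun _ => False) (Sum.elim (fun j => S i j) fun _ => False) w)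
    (Sum.elim (fun j => Sum.elim (fun _ => False) (Sum.elim (fun _ => False) fun k => T j k) w)
      fun _ => False) v

/-- the relation of the three layers on the numbers -/
def G3 (S : Fin a → Fin b → Prop) (T : Fin b → Fin c → Prop) (i j : Fin (a + (b + c))) : Prop :=
  rel3 S T ((e3 a b c).symm i) ((e3 a b c).symm j)

lemma G3_e (S : Fin a → Fin b → Prop) (T : Fin b → Fin c → Prop)
    (v w : Fin a ⊕ (Fin b ⊕ Fin c)) : G3 S T (e3 a b c v) (e3 a b c w) ↔ rel3 S T v w := by
  rw [G3, Equiv.symm_apply_apply, Equiv.symm_apply_apply]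

lemma G3_lt (S : Fin a → Fin b → Prop) (T : Fin b → Fin c → Prop) (i j : Fin (a + (b + c)))
    (h : G3 S T i j) : i < j := by
  obtain ⟨v, rfl⟩ := (e3 a b c).surjective i
  obtain ⟨w, rfl⟩ := (e3 a b c).surjective j
  rw [G3_e] at h
  rw [Fin.lt_def]
  rcases v with v | v | v <;> rcases w with w | w | w
  · exact h.elim
  · change (v : ℕ) < a + (w : ℕ)
    omega
  · exact h.elim
  · exact h.elim
  · exact h.elim
  · change a + (v : ℕ) < a + (b + (w : ℕ))
    omega
  · exact h.elim
  · exact h.elim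
  · exact h.elim

/-- the matrix of the three layers -/
def mat3 {C : Type} [CommRing C] (x : (Fin a × Fin b) ⊕ (Fin b × Fin c) → C)
    (v w : Fin a ⊕ (Fin b ⊕ Fin c)) : C :=
  Sum.elim (fun i => Sum.elim (fun _ => 0) (Sum.elim (fun j => x (Sum.inl (i, j))) fun _ => 0) w)
    (Sum.elim (fun j => Sum.elim (fun _ => 0) (Sum.elim (fun _ => 0)
      fun k => x (Sum.inr (j, k))) w) fun _ => 0) v

/-- The pairs of matrices are matrices with square zero. -/
def sqIso (S : Fin a → Fin b → Prop) (T : Fin b → Fin c → Prop) :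
    PIso ((PT.aff (Fin (a + (b + c)) × Fin (a + (b + c)))).zeros (sqN (G3 S T)))
      ((PT.aff ((Fin a × Fin b) ⊕ (Fin b × Fin c))).zeros (abN S T)) where
  fwd x := ⟨((), Sum.elim (fun p => x.1.2 (e3 a b c (Sum.inl p.1), e3 a b c (Sum.inr (Sum.inl p.2))))
    fun p => x.1.2 (e3 a b c (Sum.inr (Sum.inl p.1)), e3 a b c (Sum.inr (Sum.inr p.2)))), by
      have h0 : ∀ v w, ¬ rel3 S T v w → x.1.2 (e3 a b c v, e3 a b c w) = 0 := fun v w h =>
        x.2 (Sum.inr ⟨(e3 a b c v, e3 a b c w), fun h1 => h ((G3_e S T v w).1 h1)⟩)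
      rintro (⟨i, k⟩ | ⟨⟨i, j⟩, h⟩ | ⟨⟨j, k⟩, h⟩)
      · have h1 := x.2 (Sum.inl (e3 a b c (Sum.inl i), e3 a b c (Sum.inr (Sum.inr k))))
        change ∑ j, x.1.2 (e3 a b c (Sum.inl i), j) * x.1.2 (j, e3 a b c (Sum.inr (Sum.inr k))) = 0
          at h1
        rw [← (e3 a b c).sum_comp, Fintype.sum_sum_type, Fintype.sum_sum_type,
          Finset.sum_eq_zero (s := (Finset.univ : Finset (Fin a))) (fun j _ => by
            rw [h0 (Sum.inl i) (Sum.inl j) (fun h => h), zero_mul]),
          Finset.sum_eq_zero (s := (Finset.univ : Finset (Fin c))) (fun j _ => by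
            rw [h0 (Sum.inl i) (Sum.inr (Sum.inr j)) (fun h => h), zero_mul]), zero_add,
          add_zero] at h1
        exact h1
      · exact h0 (Sum.inl i) (Sum.inr (Sum.inl j)) h
      · exact h0 (Sum.inr (Sum.inl j)) (Sum.inr (Sum.inr k)) h⟩
  bwd y := ⟨((), fun p => mat3 y.1.2 ((e3 a b c).symm p.1) ((e3 a b c).symm p.2)), by
    rintro (⟨i, k⟩ | ⟨⟨i, k⟩, h⟩)
    · obtain ⟨v, rfl⟩ := (e3 a b c).surjective i
      obtain ⟨w, rfl⟩ := (e3 a b c).surjective k
      change ∑ j, mat3 y.1.2 ((e3 a b c).symm (e3 a b c v)) ((e3 a b c).symm j) *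
        mat3 y.1.2 ((e3 a b c).symm j) ((e3 a b c).symm (e3 a b c w)) = 0
      rw [← (e3 a b c).sum_comp]
      simp only [Equiv.symm_apply_apply]
      rw [Fintype.sum_sum_type, Fintype.sum_sum_type]
      rcases v with v | v | v <;> rcases w with w | w | w
      · simp [mat3]
      · simp [mat3]
      · have h1 := y.2 (Sum.inl (v, w))
        change ∑ j, y.1.2 (Sum.inl (v, j)) * y.1.2 (Sum.inr (j, w)) = 0 at h1
        simp only [mat3, Sum.elim_inl, Sum.elim_inr, mul_zero, Finset.sum_const_zero,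
          zero_add, add_zero]
        exact h1
      · simp [mat3]
      · simp [mat3]
      · simp [mat3]
      · simp [mat3]
      · simp [mat3]
      · simp [mat3]
    · obtain ⟨v, rfl⟩ := (e3 a b c).surjective i
      obtain ⟨w, rfl⟩ := (e3 a b c).surjective k
      have h1 : ¬ rel3 S T v w := fun h1 => h ((G3_e S T v w).2 h1)
      change mat3 y.1.2 ((e3 a b c).symm (e3 a b c v)) ((e3 a b c).symm (e3 a b c w)) = 0
      rw [Equiv.symm_apply_apply, Equiv.symm_apply_apply]
      rcases v with v | v | v <;> rcases w with w | w | w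
      · rfl
      · exact y.2 (Sum.inr (Sum.inl ⟨(v, w), h1⟩))
      · rfl
      · rfl
      · rfl
      · exact y.2 (Sum.inr (Sum.inr ⟨(v, w), h1⟩))
      · rfl
      · rfl
      · rfl⟩
  left x := by
    have h0 : ∀ v w, ¬ rel3 S T v w → x.1.2 (e3 a b c v, e3 a b c w) = 0 := fun v w h =>
      x.2 (Sum.inr ⟨(e3 a b c v, e3 a b c w), fun h1 => h ((G3_e S T v w).1 h1)⟩)
    apply Subtype.ext
    apply Prod.ext
    · rfl
    · funext p
      obtain ⟨i, k⟩ := p
      obtain ⟨v, rfl⟩ := (e3 a b c).surjective i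
      obtain ⟨w, rfl⟩ := (e3 a b c).surjective k
      change mat3 _ ((e3 a b c).symm (e3 a b c v)) ((e3 a b c).symm (e3 a b c w)) = _
      rw [Equiv.symm_apply_apply, Equiv.symm_apply_apply]
      rcases v with v | v | v <;> rcases w with w | w | w
      · exact (h0 (Sum.inl v) (Sum.inl w) (fun h => h)).symm
      · rfl
      · exact (h0 (Sum.inl v) (Sum.inr (Sum.inr w)) (fun h => h)).symm
      · exact (h0 (Sum.inr (Sum.inl v)) (Sum.inl w) (fun h => h)).symm
      · exact (h0 (Sum.inr (Sum.inl v)) (Sum.inr (Sum.inl w)) (fun h => h)).symm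
      · rfl
      · exact (h0 (Sum.inr (Sum.inr v)) (Sum.inl w) (fun h => h)).symm
      · exact (h0 (Sum.inr (Sum.inr v)) (Sum.inr (Sum.inl w)) (fun h => h)).symm
      · exact (h0 (Sum.inr (Sum.inr v)) (Sum.inr (Sum.inr w)) (fun h => h)).symm
  right y := by
    apply Subtype.ext
    apply Prod.ext
    · rfl
    · funext p
      rcases p with ⟨i, j⟩ | ⟨j, k⟩
      · change mat3 y.1.2 ((e3 a b c).symm (e3 a b c _)) ((e3 a b c).symm (e3 a b c _)) = _
        rw [Equiv.symm_apply_apply, Equiv.symm_apply_apply]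
        rfl
      · change mat3 y.1.2 ((e3 a b c).symm (e3 a b c _)) ((e3 a b c).symm (e3 a b c _)) = _
        rw [Equiv.symm_apply_apply, Equiv.symm_apply_apply]
        rfl
  nat f x := by
    apply Subtype.ext
    apply Prod.ext
    · rfl
    · funext p
      rcases p with p | p <;> rfl

end

/-- The pairs of matrices, from the matrices with square zero. -/
lemma base_of_square (hP : Clo sep P)
    (h : ∀ (n : ℕ) (G : Fin n → Fin n → Prop), (∀ i j, G i j → i < j) → P (squareZero R G)) :
    BaseP P := by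
  intro a b c S T
  have h1 := (holds_sq _ (h _ _ (G3_lt S T))).congr (sqIso S T)
  have h2 := (rep_PT (R := R)).aff ((Fin a × Fin b) ⊕ (Fin b × Fin c))
  obtain ⟨q, hq⟩ := h2.zeros' (abN S T) (abEq R S T) (abN_eq S T)
  have h3 := of_rep hP h1 hq
  rw [← productIdeal_eq] at h3
  exact h3

lemma ft_product {a b c : ℕ} (S : Fin a → Fin b → Prop) (T : Fin b → Fin c → Prop) :
    FT sep (productZero R S T) := ft_aff sep

lemma ft_square {n : ℕ} (G : Fin n → Fin n → Prop) : FT sep (squareZero R G) := ft_aff sep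

/-- **Matrices with square zero decide everything.** Let `R` be a ring such that all algebras
of finite type have presentations with coefficients `0` and `1`, and let `P` be a property of the
schemes of finite type over `R` which is closed under closed-open decompositions and descends from
`X × 𝔾_m` to `X`. The following are equivalent: `P` is true for all (separated) schemes of finite type;
`P` is true for the schemes of the pairs of matrices with product zero and prescribed zeros; `P` is true
for the schemes of the strictly upper triangular matrices with square zero and prescribed zeros. -/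
theorem square_tfae (hP : Clo sep P) (hR : Presents ({0, 1} : Set R)) :
    [∀ X : Sch R, FT sep X → P X,
      ∀ (a b c : ℕ) (S : Fin a → Fin b → Prop) (T : Fin b → Fin c → Prop), P (productZero R S T),
      ∀ (n : ℕ) (G : Fin n → Fin n → Prop), (∀ i j, G i j → i < j) → P (squareZero R G)].TFAE := by
  tfae_have 1 → 3 := fun h n G _ => h _ (ft_square G)
  tfae_have 3 → 2 := fun h => base_of_square hP h
  tfae_have 2 → 1 := fun h X hX => product_universal hP hR h X hX
  tfae_finish

end Pool.Agent.Helper53.SZ
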